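import Mathlib
import Pool.Agent.Lib.MP_fad775_nt.Frob
import Pool.Agent.Lib.MP_fad775_nt.Final

open Pool.Agent.Lib.MP_fad775_nt

/-- Q1 holds: for every `α ≥ 1` there is an integer `x` such that for every `β ∈ {0, 1, 2, 3}` and
every integer `n` with `12 n ≡ β² - 6 (mod 7^(2α-1))` one has
`cψ_{6,β}(49 n + 24 - 4 β²) ≡ x cψ_{6,β}(n) (mod 7^α)`. -/
theorem Pool.Agent.Results.MP_fad775_nt.Congruences.result :
    ∀ α : ℕ, 1 ≤ α → ∃ x : ℤ, ∀ β : ℤ, β ∈ ({0, 1, 2, 3} : Set ℤ) → ∀ n : ℤ,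
      12 * n ≡ β ^ 2 - 6 [ZMOD 7 ^ (2 * α - 1)] →
      cψ 6 β (49 * n + 24 - 4 * β ^ 2) ≡ x * cψ 6 β n [ZMOD 7 ^ α] := by
  intro α hα
  obtain ⟨X, hX⟩ := congruence α hα
  refine ⟨X, fun β hβ n hn => ?_⟩
  simp only [Set.mem_insert_iff, Set.mem_singleton_iff] at hβ
  rw [cψ_eq, cψ_eq]
  rcases hβ with rfl | rfl | rfl | rfl
  · exact hX 0 n hn
  · exact hX 1 n hn
  · exact hX 2 n hn
  · exact hX 3 n hn
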